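import Pool.Agent.Q276.PL.Stm2

/-! Statements for the candidates for class number one: `2 p` and `p q` with `p, q ≡ 3 mod 4`. -/

set_option autoImplicit false

namespace Pool.Agent.Q276.PL

open Finset Filter NumberField Pool.Agent.H38R2.CG
open scoped Classical

noncomputable section

/-- `d = p q` with primes `p < q`, both 3 mod 4 (the same as `Pool.Agent.Y892.UF.Semi`). -/
def SemiC (d : ℕ) : Prop :=
  ∃ p q : ℕ, p.Prime ∧ q.Prime ∧ p < q ∧ p % 4 = 3 ∧ q % 4 = 3 ∧ d = p * q

/-- `d = 2 p` with a prime `p ≡ 3 mod 4` (the same as `Pool.Agent.Y892.UF.Two`). -/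
def TwoC (d : ℕ) : Prop := ∃ p : ℕ, p.Prime ∧ p % 4 = 3 ∧ d = 2 * p

/-- The proportion of the members of `F` up to `X` with the property `E` tends to 0. -/
def Rare (F E : ℕ → Prop) : Prop := Tendsto (fun X : ℕ =>
  (((Finset.Ioc 0 X).filter (fun d => F d ∧ E d)).card : ℝ) /
    (((Finset.Ioc 0 X).filter F).card : ℝ)) atTop (nhds 0)

/-- LS2: few large values of L(1, chi_D) in the two families.

Proof. In the proofs of `semi_tendsto` (Pool/Agent/Y892/UG/V5.lean, V6.lean) and of the case `Two`
(Y892/UF/W7.lean, V6/V7) the only input on the exceptional set is: `short_semi` (Y892/UF/W3.lean)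
resp. `short_8` (W7.lean), that is: for every `ε` there are `z, η, X0` such that the number of the
`D = p q` (`p ∈ RR a z X`), `X < D ≤ (1 + η) X`, in the bad set is at most `ε η X SR / log X`
(resp. `ε η X / log X` for `D = 8 p`), proved there from `P3_AS0` with the weights `lft` (`swt_lft`,
`wt_pq`, `wt_one8`). Replace the bad set `Bd a t0 X D` by `(log X) ^ η' / 2 < Lone D` and `P3_AS0` by
`P2_LM` (weighted first moment of `Lone`, proved: `T2_LM`, see H951R5/AR/All.lean or
Pool.Agent.Q79.PL.All of helper79) and Markov: the sum of `wt ρ D` over the bad `D` is at most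
`2 (log X) ^ (-η') * (sum of wt ρ D * Lone D) ≤ C (log X) ^ (-η') * WW`, `Lone D ≥ 0`. The rest of
V5, V6, W7 is copied with a general predicate. (`Dof` there is `dsc` here.) -/
def StmtLS2 : Prop := ∀ η : ℝ, 0 < η →
  Rare SemiC (fun d => Real.log d ^ η < Lone (dsc d)) ∧
  Rare TwoC (fun d => Real.log d ^ η < Lone (dsc d))

/-- CLC: the class numbers in the two families.

Proof from RGB, CNF, REG, LS2 as for CLN, CLP (see there); lower bounds for the families:
`lower` in Pool/Agent/Y892/UF/W6.lean resp. `P3_lower` in N1.lean (`≥ c X / log X` for both). -/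
def StmtCLC : Prop := ∀ δ : ℝ, 0 < δ →
  Rare SemiC (fun d => ¬ GoodC δ d) ∧ Rare TwoC (fun d => ¬ GoodC δ d)

end

end Pool.Agent.Q276.PL
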