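import Pool.Agent.Q276.PL.Stm

/-! NSQ of the project PL of helper276. -/

set_option autoImplicit false

namespace Pool.Agent.Q276.PL

open Polynomial Pool.Agent.W223.HZ Pool.Agent.W223.PL

theorem nsq : StmtNSQ := by
  intro P Q d₀ n hcop hn P₁ P₂ hne h0
  have hn0 : (n : ℚ) ≠ 0 := by
    intro h
    exact hn (by rw [Int.cast_eq_zero.mp h]; exact IsSquare.zero)
  obtain ⟨φ, hφ⟩ : ∃ φ, φ = Int.castRingHom ℚ := ⟨_, rfl⟩
  have hinj : Function.Injective (Polynomial.map φ) := by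
    rw [hφ]
    exact Polynomial.map_injective _ Int.cast_injective
  rw [← hφ] at hcop
  obtain ⟨p, hp⟩ : ∃ p, p = P.map φ := ⟨_, rfl⟩
  obtain ⟨q, hq⟩ : ∃ q, q = Q.map φ := ⟨_, rfl⟩
  obtain ⟨p₁, hp₁⟩ : ∃ p, p = P₁.map φ := ⟨_, rfl⟩
  obtain ⟨p₂, hp₂⟩ : ∃ p, p = P₂.map φ := ⟨_, rfl⟩
  have hE : p₁ ^ 2 = p₂ ^ 2 * (C (n : ℚ) * (q ^ 2 - (C (d₀ : ℚ) + X) * p ^ 2)) := by
    have h1 := congrArg (Polynomial.map φ) (sub_eq_zero.mp h0)
    simp only [Polynomial.map_pow, Polynomial.map_mul, Polynomial.map_sub, Polynomial.map_add,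
      Polynomial.map_C, Polynomial.map_X] at h1
    rw [hp, hq, hp₁, hp₂, h1, hφ]
    simp
  have hp₂0 : p₂ ≠ 0 := by
    intro h
    have h1 : P₂ = 0 := by
      apply hinj
      rw [← hp₂, h, Polynomial.map_zero]
    rw [h, zero_pow two_ne_zero, zero_mul] at hE
    have h2 : P₁ = 0 := by
      apply hinj
      rw [← hp₁, Polynomial.map_zero]
      exact pow_eq_zero_iff two_ne_zero |>.mp hE
    rcases hne with h3 | h3
    · exact h3 h2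
    · exact h3 h1
  have hdvd : p₂ ∣ p₁ := (IsIntegrallyClosed.pow_dvd_pow_iff two_ne_zero).mp ⟨_, hE⟩
  obtain ⟨w, hw⟩ := hdvd
  have hW : w ^ 2 = C (n : ℚ) * (q ^ 2 - (C (d₀ : ℚ) + X) * p ^ 2) := by
    have h1 : p₂ ^ 2 * w ^ 2 = p₂ ^ 2 * (C (n : ℚ) * (q ^ 2 - (C (d₀ : ℚ) + X) * p ^ 2)) := by
      rw [← hE, hw]; ring
    exact mul_left_cancel₀ (pow_ne_zero 2 hp₂0) h1
  have e1 := congrArg (Polynomial.eval (-(d₀ : ℚ))) hW
  simp only [eval_pow, eval_mul, eval_sub, eval_add, eval_C, eval_X] at e1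
  have e2 : (eval (-(d₀ : ℚ)) w) ^ 2 = (n : ℚ) * (eval (-(d₀ : ℚ)) q) ^ 2 := by
    rw [e1]; ring
  have hq0 : eval (-(d₀ : ℚ)) q = 0 := by
    by_contra h
    apply hn
    rw [← Rat.isSquare_intCast_iff]
    refine ⟨eval (-(d₀ : ℚ)) w / eval (-(d₀ : ℚ)) q, ?_⟩
    field_simp
    rw [e2]
  have hw0 : eval (-(d₀ : ℚ)) w = 0 := by
    rw [hq0] at e2
    have : (eval (-(d₀ : ℚ)) w) ^ 2 = 0 := by rw [e2]; ring
    exact pow_eq_zero_iff two_ne_zero |>.mp this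
  obtain ⟨q', hq'⟩ := dvd_iff_isRoot.mpr (show IsRoot q (-(d₀ : ℚ)) from hq0)
  obtain ⟨w', hw'⟩ := dvd_iff_isRoot.mpr (show IsRoot w (-(d₀ : ℚ)) from hw0)
  have hX : (X : ℚ[X]) - C (-(d₀ : ℚ)) = C (d₀ : ℚ) + X := by
    rw [C_neg]; ring
  rw [hX] at hq' hw'
  have hX0 : (C (d₀ : ℚ) + X : ℚ[X]) ≠ 0 := by
    rw [← hX]; exact X_sub_C_ne_zero _
  have hV : (C (d₀ : ℚ) + X) * w' ^ 2 =
      C (n : ℚ) * ((C (d₀ : ℚ) + X) * q' ^ 2 - p ^ 2) := by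
    apply mul_left_cancel₀ hX0
    have h1 := hW
    rw [hq', hw'] at h1
    linear_combination h1
  have e3 := congrArg (Polynomial.eval (-(d₀ : ℚ))) hV
  simp only [eval_pow, eval_mul, eval_sub, eval_add, eval_C, eval_X] at e3
  have hp0 : eval (-(d₀ : ℚ)) p = 0 := by
    have h1 : (n : ℚ) * (eval (-(d₀ : ℚ)) p) ^ 2 = 0 := by
      have : (d₀ : ℚ) + -(d₀ : ℚ) = 0 := by ring
      rw [this] at e3
      linarith
    rcases mul_eq_zero.mp h1 with h2 | h2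
    · exact absurd h2 hn0
    · exact pow_eq_zero_iff two_ne_zero |>.mp h2
  obtain ⟨a, b, hab⟩ := hcop
  have e4 := congrArg (Polynomial.eval (-(d₀ : ℚ))) hab
  rw [← hp, ← hq] at e4
  simp only [eval_add, eval_mul, hp0, hq0, mul_zero, add_zero, eval_one] at e4
  exact zero_ne_one e4

end Pool.Agent.Q276.PL
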