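import Pool.Agent.Q276.PL.FinU
import Pool.Agent.Q208.PL.DPG
import Pool.Agent.Q211.PL.PP1
import Pool.Agent.Q182.PL.MIN
import Pool.Agent.Q288.PL.PAS
import Pool.Agent.Q288.PL.CLQ
import Pool.Agent.Q164.PL.CUQ
import Pool.Agent.Q121.PL.PIG
import Pool.Agent.Q182.PL.SIDE
import Pool.Agent.Q109.PLJ.CLS
import Pool.Agent.Q109.PLJ.PVG
import Pool.Agent.Q109.PLJ.AR
import Pool.Agent.Q109.PLJ.BLK
import Pool.Agent.Q65.PL.B4
import Pool.Agent.Q65.PL.B3
import Pool.Agent.Q210.PL.B1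
import Pool.Agent.Q210.PL.B2
import Pool.Agent.Q276.PL.NSQ
import Pool.Agent.Q247.PL.Str
import Pool.Agent.Q94.PL.R2D
import Pool.Agent.Q144.PL_UFIN
import Pool.Agent.Q151.PL.Uni
import Pool.Agent.Q151.PL.Rgb

/-! Assembly: few squarefree `d` with a small unit. -/

set_option autoImplicit false

namespace Pool.Agent.Q276.PL

open Pool.Agent.W223.PL

theorem cuq_true : StmtCUQ := Pool.Agent.Q164.PL.cuq (Pool.Agent.Q288.PL.clq Pool.Agent.Q288.PL.pas)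

theorem pvg_true : StmtPVG := Pool.Agent.Q109.PLJ.pvg Pool.Agent.Q208.PL.dpg Pool.Agent.Q211.PL.pp1

theorem side_true : StmtSIDE :=
  Pool.Agent.Q182.PL.side Pool.Agent.Q109.PLJ.ar Pool.Agent.Q276.PL.nsq cuq_true

theorem class_true : StmtCLASS :=
  Pool.Agent.Q109.PLJ.cls Pool.Agent.Q182.PL.min Pool.Agent.Q94.PL.r2d side_true

theorem pig_true : StmtPIG :=
  Pool.Agent.Q121.PL.pig pvg_true Pool.Agent.Q182.PL.min cuq_true Pool.Agent.Q247.PL.str class_true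

theorem ufin_true : StmtUFIN :=
  Pool.Agent.Q144.UF.ufin (Pool.Agent.Q109.PLJ.blk Pool.Agent.Q210.PL.b1
    (Pool.Agent.Q65.PL.b4 (Pool.Agent.Q65.PL.b3 pig_true Pool.Agent.Q210.PL.b2)))

theorem rgb_true : StmtRGB := Pool.Agent.Q151.PL.rgb ufin_true Pool.Agent.Q151.PL.uni

end Pool.Agent.Q276.PL
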