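import Pool.Agent.Q276.PL.All
import Pool.Agent.Q164.PL.PI
import Pool.Agent.Q164.PL.PFIN
import Pool.Agent.Q288.PL.SQR
import Pool.Agent.Q164.PL.BEZ
import Pool.Agent.W75.PL.DIV

/-! Assembly: the power saving theorem with small norms. -/

set_option autoImplicit false

namespace Pool.Agent.Q276.PL

open Pool.Agent.W223.HZ Pool.Agent.W223.PL

theorem pv_of (h : StmtPVG) : StmtPV := by
  obtain ⟨C₇, hC, h⟩ := h
  intro A hA m hm
  refine ⟨max C₇ (Real.exp (C₇ * m)), le_max_of_le_left hC, ?_⟩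
  intro D V d₀ P Q d hD hV1 hV2 h1 h2 h3 h4 h5 h6 h7
  have hD1 : C₇ ≤ D := (le_max_left _ _).trans hD
  have hD2 : Real.exp (C₇ * m) ≤ D := (le_max_right _ _).trans hD
  have hD0 : 0 < D := by linarith
  refine h m D V (2 * A) d₀ P Q d ?_ hD1 (by positivity) ?_ ?_ hV1 ?_ h1 h2 h3 h4 h5 h6 h7
  · rw [hm]
    have : 0 < (4 * A + 1) ^ 2 := by positivity
    omega
  · rw [hm]
    push_cast
    apply le_of_eq
    ring
  · exact (Real.le_log_iff_exp_le hD0).2 hD2
  · have h8 := Real.rpow_natCast D (2 * A)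
    push_cast at h8
    rw [h8]
    exact hV2

theorem pfin_true : StmtPFIN :=
  Pool.Agent.Q164.PL.pfin (Pool.Agent.Q164.PL.pi1 (pv_of pvg_true) Pool.Agent.Q182.PL.min
    Pool.Agent.Q164.PL.bez Pool.Agent.W75.PL.DIV.t cuq_true Pool.Agent.Q288.PL.sqr)

end Pool.Agent.Q276.PL
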