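import Pool.Agent.Q276.PL.All
import Pool.Agent.Q276.PL.Stm3
import Pool.Agent.Q208.LS.LS2
import Pool.Agent.Q68.PL.CLC
import Pool.Agent.Q149.PL.CLN
import Pool.Agent.Q210.PL.CNF
import Pool.Agent.Q210.PL.REG
import Pool.Agent.Q79.PL.All
import Pool.Agent.Q293.PL.LSM

/-! Assembly: class numbers. -/

set_option autoImplicit false

namespace Pool.Agent.Q276.PL

theorem lsm_true : StmtLSM := Pool.Agent.Q293.PL.LSM.lsm Pool.Agent.Q79.PL.lav Pool.Agent.Q79.PL.lnn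

theorem lsp_true : StmtLSP := Pool.Agent.Q293.PL.LSM.lsp Pool.Agent.Q79.PL.lap Pool.Agent.Q79.PL.lnn

theorem cln_true : StmtCLN :=
  Pool.Agent.Q149.PL.cln rgb_true Pool.Agent.Q210.PL.cnf Pool.Agent.Q210.PL.reg lsm_true

theorem clp_true : StmtCLP :=
  Pool.Agent.Q149.PL.clp rgb_true Pool.Agent.Q210.PL.cnf Pool.Agent.Q210.PL.reg lsp_true

theorem clc_true : StmtCLC :=
  Pool.Agent.Q68.PL.clc rgb_true Pool.Agent.Q210.PL.cnf Pool.Agent.Q210.PL.reg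
    Pool.Agent.Q208.LS.ls2

end Pool.Agent.Q276.PL
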