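import Pool.Agent.Q276.PL.AllC

/-! The mean value of the class numbers of the fields `ℚ(√p)`. -/

set_option autoImplicit false

namespace Pool.Agent.Q276.PL.Mean

open Finset Filter NumberField Pool.Agent.H38R2.CG Pool.Agent.Q276.PL Pool.Agent.Q149.PL
open scoped Classical

noncomputable section

theorem chi_le (D : ℤ) (n : ℕ) : |(chi D n : ℝ)| ≤ 1 := by
  have h1 : |chi2 D| ≤ 1 := by
    unfold chi2
    split_ifs <;> simp
  have h2 : |jacobiSym D (n / 2 ^ padicValNat 2 n)| ≤ 1 := by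
    rcases jacobiSym.trichotomy D (n / 2 ^ padicValNat 2 n) with h | h | h <;> rw [h] <;> simp
  have h3 : |chi D n| ≤ 1 := by
    unfold chi
    rw [abs_mul, abs_pow]
    calc |chi2 D| ^ padicValNat 2 n * |jacobiSym D (n / 2 ^ padicValNat 2 n)| ≤ 1 * 1 :=
          mul_le_mul (pow_le_one₀ (abs_nonneg _) h1) h2 (abs_nonneg _) (by norm_num)
      _ = 1 := by norm_num
  exact_mod_cast h3

theorem lone_le : ∃ C : ℝ, 1 ≤ C ∧ ∀ D : ℕ, IsFund D → 3 ≤ D → Lone D ≤ C * Real.log D := by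
  obtain ⟨C, hC, h⟩ := Pool.Agent.Q79.PL.p_N3a
  refine ⟨2 + C, by linarith, fun D hD hD3 => ?_⟩
  have hD0 : (3 : ℝ) ≤ D := by exact_mod_cast hD3
  have hl : 1 ≤ Real.log D := by
    rw [Real.le_log_iff_exp_le (by linarith)]
    linarith [Real.exp_one_lt_d9]
  have h1 := h D hD D (by omega)
  have h2 : ∑ n ∈ Finset.Icc 1 D, (chi D n : ℝ) / n ≤ 1 + Real.log D := by
    have h3 : ∑ n ∈ Finset.Icc 1 D, (chi D n : ℝ) / n ≤ ∑ n ∈ Finset.Icc 1 D, ((n : ℝ))⁻¹ := by
      refine sum_le_sum fun n hn => ?_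
      rw [Finset.mem_Icc] at hn
      rw [inv_eq_one_div]
      apply div_le_div_of_nonneg_right ((le_abs_self _).trans (chi_le _ _)) (by positivity)
    have h4 := harmonic_le_one_add_log D
    have h5 : ((harmonic D : ℚ) : ℝ) = ∑ n ∈ Finset.Icc 1 D, ((n : ℝ))⁻¹ := by
      rw [harmonic_eq_sum_Icc]
      push_cast
      rfl
    rw [h5] at h4
    exact h3.trans h4
  have h6 : C * √(D : ℝ) * Real.log D / D ≤ C * Real.log D := by
    rw [div_le_iff₀ (by linarith)]
    have h7 : √(D : ℝ) ≤ D := by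
      rw [Real.sqrt_le_left (by linarith)]
      nlinarith
    nlinarith [mul_le_mul_of_nonneg_left h7 (by positivity : 0 ≤ C * Real.log D)]
  have h8 := (abs_le.1 h1).2
  nlinarith

theorem five_le_dsc {d : ℕ} (h1 : 1 < d) (hs : Squarefree d) : 5 ≤ dsc d := by
  unfold dsc
  split_ifs with h
  · omega
  · omega

theorem sqrt_dsc (d : ℕ) : √(dsc d : ℝ) ≤ 2 * √(d : ℝ) := by
  have hD4 : (dsc d : ℝ) ≤ 4 * d := by exact_mod_cast dsc_le d
  have h2 : √(dsc d : ℝ) ≤ √(4 * d : ℝ) := Real.sqrt_le_sqrt hD4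
  have h3 : √(4 * d : ℝ) = 2 * √(d : ℝ) := by
    rw [Real.sqrt_mul (by norm_num), show (4 : ℝ) = 2 ^ 2 by norm_num,
      Real.sqrt_sq (by norm_num)]
  linarith

/-- the trivial bound for the class number -/
theorem cl_le : ∃ C : ℝ, 1 ≤ C ∧ ∀ (K : Type) [Field K] [NumberField K] (d : ℕ), 1 < d →
    Squarefree d → Module.finrank ℚ K = 2 → (∃ x : K, x ^ 2 = (d : K)) →
    (classNumber K : ℝ) ≤ C * √(d : ℝ) * Real.log (4 * d) := by
  obtain ⟨C, hC, hL⟩ := lone_le
  refine ⟨4 * C, by linarith, fun K _ _ d hd hs hrk hex => ?_⟩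
  obtain ⟨t, u, ht, hu, hn, hR⟩ := Pool.Agent.Q210.PL.reg K d hd hs hrk hex
  have hcnf := Pool.Agent.Q210.PL.cnf K d hd hs hrk hex
  have h5 := five_le_dsc hd hs
  have hD5 : (5 : ℝ) ≤ (dsc d : ℝ) := by exact_mod_cast h5
  have hs5 : (11 / 5 : ℝ) ≤ √(dsc d : ℝ) := by
    apply Real.le_sqrt_of_sq_le
    linarith
  have ht1 : (1 : ℝ) ≤ t := by exact_mod_cast ht
  have hu1 : (1 : ℝ) ≤ u := by exact_mod_cast hu
  have hz : (8 / 5 : ℝ) ≤ ((t : ℝ) + (u : ℝ) * √(dsc d : ℝ)) / 2 := by nlinarith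
  have hR2 : (3 / 8 : ℝ) ≤ Units.regulator K := by
    rw [hR]
    have h6 := Real.one_sub_inv_le_log_of_pos (show (0 : ℝ) < 8 / 5 by norm_num)
    have h7 := Real.log_le_log (by norm_num : (0 : ℝ) < 8 / 5) hz
    norm_num at h6
    linarith
  have hLo := hL (dsc d) (isFund_dsc hd hs) (by omega)
  have hd0 : (0 : ℝ) < d := by exact_mod_cast (by omega : 0 < d)
  have hlog : Real.log (dsc d) ≤ Real.log (4 * d) := by
    apply Real.log_le_log (by linarith)
    exact_mod_cast dsc_le d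
  have hlog0 : 0 ≤ Real.log (dsc d) := Real.log_nonneg (by linarith)
  have hq := sqrt_dsc d
  have hh0 : (0 : ℝ) ≤ (classNumber K : ℝ) := Nat.cast_nonneg _
  have h8 : 2 * (3 / 8 : ℝ) * (classNumber K : ℝ) ≤ 2 * √(d : ℝ) * (C * Real.log (4 * d)) := by
    calc 2 * (3 / 8 : ℝ) * (classNumber K : ℝ) ≤ 2 * Units.regulator K * (classNumber K : ℝ) :=
          mul_le_mul_of_nonneg_right (by linarith) hh0
      _ = √(dsc d : ℝ) * Lone (dsc d) := hcnf
      _ ≤ √(dsc d : ℝ) * (C * Real.log (dsc d)) :=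
          mul_le_mul_of_nonneg_left hLo (Real.sqrt_nonneg _)
      _ ≤ 2 * √(d : ℝ) * (C * Real.log (4 * d)) := by
          apply mul_le_mul hq (by nlinarith) (by positivity) (by positivity)
  have h9 : 0 ≤ √(d : ℝ) * (C * Real.log (4 * d)) := by
    have : 0 ≤ Real.log (4 * d) := hlog0.trans hlog
    positivity
  nlinarith

/-- the bound outside the exceptional set -/
theorem cl_good (K : Type) [Field K] [NumberField K] (d : ℕ) (hd : 1 < d) (hs : Squarefree d)
    (hrk : Module.finrank ℚ K = 2) (hex : ∃ x : K, x ^ 2 = (d : K)) (L : ℝ) (hL : 0 < L)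
    (hns : ¬ SmallUnit (dsc d) (Real.exp L)) :
    (classNumber K : ℝ) ≤ √(d : ℝ) * Lone (dsc d) / L := by
  obtain ⟨t, u, ht, hu, hn, hR⟩ := Pool.Agent.Q210.PL.reg K d hd hs hrk hex
  have hcnf := Pool.Agent.Q210.PL.cnf K d hd hs hrk hex
  have ht1 : (1 : ℝ) ≤ t := by exact_mod_cast ht
  have hbig : L < Units.regulator K := by
    rw [hR, Real.lt_log_iff_exp_lt (by positivity)]
    by_contra hcon
    exact hns ⟨t, u, ht, hu, hn, not_lt.1 hcon⟩
  have hh0 : (0 : ℝ) ≤ (classNumber K : ℝ) := Nat.cast_nonneg _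
  have hl0 : 0 ≤ Lone (dsc d) := Pool.Agent.Q79.PL.lnn _ (isFund_dsc hd hs)
  rw [le_div_iff₀ hL]
  have h1 : 2 * (L * (classNumber K : ℝ)) ≤ 2 * (√(d : ℝ) * Lone (dsc d)) := by
    calc 2 * (L * (classNumber K : ℝ)) ≤ 2 * Units.regulator K * (classNumber K : ℝ) := by
          nlinarith [mul_le_mul_of_nonneg_right hbig.le hh0]
      _ = √(dsc d : ℝ) * Lone (dsc d) := hcnf
      _ ≤ 2 * √(d : ℝ) * Lone (dsc d) := mul_le_mul_of_nonneg_right (sqrt_dsc d) hl0
      _ = 2 * (√(d : ℝ) * Lone (dsc d)) := by ring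
  linarith

/-- `h p` is the class number of `ℚ(√p)` for every prime `p`. -/
def IsCl (h : ℕ → ℕ) : Prop := ∀ p : ℕ, p.Prime → ∃ (K : Type) (_ : Field K) (_ : NumberField K),
  Module.finrank ℚ K = 2 ∧ (∃ x : K, x ^ 2 = (p : K)) ∧ h p = classNumber K

/-- the first moment of L(1, χ) over the fields of the primes of a block -/
theorem lone_block : ∃ (C : ℝ) (Y0 : ℕ), 0 ≤ C ∧ ∀ Y ≥ Y0,
    ∑ p ∈ (Finset.Ioc Y (2 * Y)).filter Nat.Prime, Lone (dsc p) ≤ C * Y / Real.log Y := by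
  obtain ⟨C, X0, h⟩ := Pool.Agent.Q79.PL.lap
  refine ⟨5 * |C|, max X0 3, by positivity, fun Y hY => ?_⟩
  have hY0 : X0 ≤ Y := (le_max_left _ _).trans hY
  have hY3 : 3 ≤ Y := (le_max_right _ _).trans hY
  have h1 := h Y hY0
  have h2 := h (4 * Y) (by omega)
  have hYr : (3 : ℝ) ≤ Y := by exact_mod_cast hY3
  have hl : 1 ≤ Real.log Y := by
    rw [Real.le_log_iff_exp_le (by linarith)]
    linarith [Real.exp_one_lt_d9]
  have hl4 : Real.log Y ≤ Real.log ((4 * Y : ℕ) : ℝ) := by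
    apply Real.log_le_log (by linarith)
    push_cast
    linarith
  -- split
  have hsplit : ∑ p ∈ (Finset.Ioc Y (2 * Y)).filter Nat.Prime, Lone (dsc p) =
      ∑ p ∈ ((Finset.Ioc Y (2 * Y)).filter Nat.Prime).filter (fun p => dsc p = p), Lone (dsc p) +
      ∑ p ∈ ((Finset.Ioc Y (2 * Y)).filter Nat.Prime).filter (fun p => ¬ dsc p = p),
        Lone (dsc p) := (sum_filter_add_sum_filter_not _ _ _).symm
  have e1 : ∑ p ∈ ((Finset.Ioc Y (2 * Y)).filter Nat.Prime).filter (fun p => dsc p = p),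
      Lone (dsc p) ≤ ∑ D ∈ (Finset.Ioc Y (2 * Y)).filter (fun D => IsFund D ∧ ∃ p : ℕ, p.Prime ∧
        (D = p ∨ D = 4 * p)), Lone D := by
    have : ∑ p ∈ ((Finset.Ioc Y (2 * Y)).filter Nat.Prime).filter (fun p => dsc p = p),
        Lone (dsc p) = ∑ D ∈ ((Finset.Ioc Y (2 * Y)).filter Nat.Prime).filter
          (fun p => dsc p = p), Lone D := by
      refine sum_congr rfl fun p hp => ?_
      rw [mem_filter] at hp
      rw [hp.2]
    rw [this]
    refine sum_le_sum_of_subset_of_nonneg ?_ ?_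
    · intro p hp
      rw [mem_filter, mem_filter] at hp
      rw [mem_filter]
      refine ⟨hp.1.1, ?_, p, hp.1.2, Or.inl rfl⟩
      have := isFund_dsc hp.1.2.one_lt hp.1.2.prime.squarefree
      rwa [hp.2] at this
    · intro D hD _
      rw [mem_filter] at hD
      exact Pool.Agent.Q79.PL.lnn _ hD.2.1
  have e2 : ∑ p ∈ ((Finset.Ioc Y (2 * Y)).filter Nat.Prime).filter (fun p => ¬ dsc p = p),
      Lone (dsc p) ≤ ∑ D ∈ (Finset.Ioc (4 * Y) (2 * (4 * Y))).filter (fun D => IsFund D ∧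
        ∃ p : ℕ, p.Prime ∧ (D = p ∨ D = 4 * p)), Lone D := by
    have : ∑ p ∈ ((Finset.Ioc Y (2 * Y)).filter Nat.Prime).filter (fun p => ¬ dsc p = p),
        Lone (dsc p) = ∑ D ∈ (((Finset.Ioc Y (2 * Y)).filter Nat.Prime).filter
          (fun p => ¬ dsc p = p)).image dsc, Lone D := by
      rw [sum_image]
      intro a _ b _ hab
      exact dsc_inj hab
    rw [this]
    refine sum_le_sum_of_subset_of_nonneg ?_ ?_
    · intro D hD
      rw [mem_image] at hD
      obtain ⟨p, hp, rfl⟩ := hD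
      rw [mem_filter, mem_filter, Finset.mem_Ioc] at hp
      have h4 : dsc p = 4 * p := by
        rcases dsc_or p with h | h
        · exact absurd h hp.2
        · exact h
      rw [mem_filter, Finset.mem_Ioc]
      refine ⟨⟨by omega, by omega⟩, isFund_dsc hp.1.2.one_lt hp.1.2.prime.squarefree, p, hp.1.2,
        Or.inr h4⟩
    · intro D hD _
      rw [mem_filter] at hD
      exact Pool.Agent.Q79.PL.lnn _ hD.2.1
  have h1' : C * Y / Real.log Y ≤ |C| * Y / Real.log Y := by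
    apply div_le_div_of_nonneg_right _ (by linarith)
    exact mul_le_mul_of_nonneg_right (le_abs_self C) (by linarith)
  have h2' : C * ((4 * Y : ℕ) : ℝ) / Real.log ((4 * Y : ℕ) : ℝ) ≤ 4 * |C| * Y / Real.log Y := by
    calc C * ((4 * Y : ℕ) : ℝ) / Real.log ((4 * Y : ℕ) : ℝ) ≤
        |C| * ((4 * Y : ℕ) : ℝ) / Real.log ((4 * Y : ℕ) : ℝ) := by
          apply div_le_div_of_nonneg_right _ (by linarith)
          exact mul_le_mul_of_nonneg_right (le_abs_self C) (by positivity)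
      _ ≤ |C| * ((4 * Y : ℕ) : ℝ) / Real.log Y := by
          apply div_le_div_of_nonneg_left (by positivity) (by linarith) hl4
      _ = 4 * |C| * Y / Real.log Y := by
          push_cast
          ring
  have hfin : |C| * Y / Real.log Y + 4 * |C| * Y / Real.log Y = 5 * |C| * Y / Real.log Y := by
    ring
  rw [hsplit]
  linarith

end

end Pool.Agent.Q276.PL.Mean
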