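import Pool.Agent.Q276.PL.Mean

/-! The mean value of the class numbers of the fields `ℚ(√p)`, assembly. -/

set_option autoImplicit false

namespace Pool.Agent.Q276.PL.Mean

open Finset Filter NumberField Pool.Agent.H38R2.CG Pool.Agent.Q276.PL Pool.Agent.Q149.PL
open scoped Classical

noncomputable section

theorem sum_union_le' (s t : Finset ℕ) (f : ℕ → ℝ) (hf : ∀ p, 0 ≤ f p) :
    ∑ p ∈ s ∪ t, f p ≤ ∑ p ∈ s, f p + ∑ p ∈ t, f p := by
  rw [← sum_union_inter]
  have : 0 ≤ ∑ p ∈ s ∩ t, f p := sum_nonneg fun p _ => hf p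
  linarith

/-- the comparison function -/
def G (a : ℝ) (X : ℝ) : ℝ := X ^ (3 / 2 : ℝ) / Real.log X ^ a

theorem rpow_three_half {X : ℝ} (hX : 0 ≤ X) : X ^ (3 / 2 : ℝ) = √X * X := by
  rw [show (3 / 2 : ℝ) = 1 / 2 + 1 by norm_num, Real.rpow_add' hX (by norm_num), Real.rpow_one,
    ← Real.sqrt_eq_rpow]

/-- `exp (- (log X) ^ s)` beats every power of `log X`. -/
theorem exp_small (s k : ℝ) (hs : 0 < s) : ∃ X0 : ℕ, ∀ X : ℕ, X0 ≤ X →
    Real.log X ^ k * Real.exp (-(Real.log X ^ s)) ≤ 1 := by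
  have h1 := tendsto_rpow_mul_exp_neg_mul_atTop_nhds_zero (k / s) 1 one_pos
  have h2 : Tendsto (fun X : ℕ => Real.log X ^ s) atTop atTop :=
    ((tendsto_rpow_atTop hs).comp Real.tendsto_log_atTop).comp tendsto_natCast_atTop_atTop
  have h3 := (h1.comp h2).eventually (eventually_le_nhds (show (0 : ℝ) < 1 by norm_num))
  obtain ⟨X0, h4⟩ := eventually_atTop.1 h3
  refine ⟨max X0 1, fun X hX => ?_⟩
  have h5 := h4 X ((le_max_left _ _).trans hX)
  have hl : 0 ≤ Real.log X := Real.log_nonneg (by exact_mod_cast (le_max_right _ _).trans hX)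
  have h6 : (Real.log X ^ s) ^ (k / s) = Real.log X ^ k := by
    rw [← Real.rpow_mul hl]
    congr 1
    field_simp
  simp only [Function.comp_apply] at h5
  rw [h6] at h5
  rwa [neg_one_mul] at h5

theorem block (δ : ℝ) (hδ : 0 < δ) (hδ2 : δ < 1 / 2) : ∃ (C : ℝ) (Y0 : ℕ), 0 ≤ C ∧
    ∀ h : ℕ → ℕ, IsCl h → ∀ Y ≥ Y0,
    ∑ p ∈ (Finset.Ioc Y (2 * Y)).filter Nat.Prime, (h p : ℝ) ≤ C * G (5 / 2 - δ) Y := by
  obtain ⟨C1, Y1, hC1, hL⟩ := lone_block
  obtain ⟨C2, hC2, hT⟩ := cl_le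
  obtain ⟨M, hM⟩ := rgb_true δ hδ hδ2
  obtain ⟨X0, hX0⟩ := exp_small (δ / 8) (7 / 2) (by positivity)
  refine ⟨2 * C1 + 16 * |M| * C2, max (max Y1 X0) 3, by positivity, fun h hh Y hY => ?_⟩
  have hY1 : Y1 ≤ Y := ((le_max_left _ _).trans (le_max_left _ _)).trans hY
  have hYX : X0 ≤ Y := ((le_max_right _ _).trans (le_max_left _ _)).trans hY
  have hY3 : 3 ≤ Y := (le_max_right _ _).trans hY
  have hYr : (3 : ℝ) ≤ Y := by exact_mod_cast hY3
  have hl : 1 ≤ Real.log Y := by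
    rw [Real.le_log_iff_exp_le (by linarith)]
    linarith [Real.exp_one_lt_d9]
  have hl0 : 0 < Real.log Y := by linarith
  have hX2 : ((2 * Y : ℕ) : ℝ) = 2 * Y := by push_cast; ring
  have hl2 : Real.log Y ≤ Real.log ((2 * Y : ℕ) : ℝ) := by
    apply Real.log_le_log (by linarith)
    rw [hX2]
    linarith
  set L : ℝ := Real.log ((2 * Y : ℕ) : ℝ) with hLdef
  have hL0 : 0 < L := by linarith
  -- the exceptional set
  obtain ⟨Bd, hBd⟩ : ∃ Bd : Finset ℕ, Bd = (Finset.Icc 2 (2 * Y)).filter (fun d => Squarefree d ∧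
    SmallUnit (dsc d) (Real.exp (L ^ (3 / 2 - δ)))) := ⟨_, rfl⟩
  have hBc : (Bd.card : ℝ) ≤ |M| * (2 * Y) * Real.exp (-(L ^ (δ / 8))) := by
    rw [hBd]
    have h9 := hM (2 * Y) (by omega)
    rw [← hLdef] at h9
    refine h9.trans ?_
    apply mul_le_mul_of_nonneg_right _ (Real.exp_pos _).le
    rw [hX2]
    exact mul_le_mul_of_nonneg_right (le_abs_self M) (by linarith)
  have hpow : 0 < L ^ (3 / 2 - δ) := Real.rpow_pos_of_pos hL0 _
  have hs2 : √(2 * (Y : ℝ)) ≤ 2 * √(Y : ℝ) := by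
    rw [Real.sqrt_mul (by norm_num)]
    have : √(2 : ℝ) ≤ 2 := by
      rw [Real.sqrt_le_left (by norm_num)]
      norm_num
    exact mul_le_mul_of_nonneg_right this (Real.sqrt_nonneg _)
  -- pointwise
  have hpt : ∀ p ∈ (Finset.Ioc Y (2 * Y)).filter Nat.Prime, (h p : ℝ) ≤
      2 * √(Y : ℝ) / L ^ (3 / 2 - δ) * Lone (dsc p) +
        (if p ∈ Bd then C2 * (2 * √(Y : ℝ)) * (4 * Real.log Y) else 0) := by
    intro p hp
    rw [mem_filter, Finset.mem_Ioc] at hp
    obtain ⟨⟨hp1, hp2⟩, hpp⟩ := hp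
    obtain ⟨K, i1, i2, hrk, hex, hcl⟩ := hh p hpp
    have hsq : Squarefree p := hpp.prime.squarefree
    have hlone : 0 ≤ Lone (dsc p) := Pool.Agent.Q79.PL.lnn _ (isFund_dsc hpp.one_lt hsq)
    have hp0 : (0 : ℝ) < p := by exact_mod_cast hpp.pos
    have hsp : √(p : ℝ) ≤ 2 * √(Y : ℝ) := by
      refine le_trans (Real.sqrt_le_sqrt ?_) hs2
      rw [← hX2]
      exact_mod_cast hp2
    split_ifs with hb
    · have h1 := hT K p hpp.one_lt hsq hrk hex
      rw [← hcl] at h1
      have h2 : Real.log (4 * (p : ℝ)) ≤ 4 * Real.log Y := by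
        have h3 : (4 * (p : ℝ)) ≤ (Y : ℝ) ^ 4 := by
          have h4 : (p : ℝ) ≤ 2 * Y := by
            rw [← hX2]
            exact_mod_cast hp2
          nlinarith [pow_pos (by linarith : (0 : ℝ) < Y) 3,
            pow_le_pow_left₀ (by norm_num) hYr 3]
        calc Real.log (4 * (p : ℝ)) ≤ Real.log ((Y : ℝ) ^ 4) :=
              Real.log_le_log (by positivity) h3
          _ = 4 * Real.log Y := by
              rw [Real.log_pow]
              norm_num
      have h5 : 0 ≤ Real.log (4 * (p : ℝ)) := by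
        apply Real.log_nonneg
        have : (1 : ℝ) ≤ p := by exact_mod_cast hpp.one_lt.le
        linarith
      have h6 : (h p : ℝ) ≤ C2 * (2 * √(Y : ℝ)) * (4 * Real.log Y) := by
        refine h1.trans ?_
        apply mul_le_mul _ h2 h5 (by positivity)
        exact mul_le_mul_of_nonneg_left hsp (by linarith)
      have h7 : 0 ≤ 2 * √(Y : ℝ) / L ^ (3 / 2 - δ) * Lone (dsc p) := by positivity
      linarith
    · have hns : ¬ SmallUnit (dsc p) (Real.exp (L ^ (3 / 2 - δ))) := by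
        intro hsu
        apply hb
        rw [hBd, mem_filter, Finset.mem_Icc]
        exact ⟨⟨hpp.two_le, hp2⟩, hsq, hsu⟩
      have h1 := cl_good K p hpp.one_lt hsq hrk hex _ hpow hns
      rw [← hcl] at h1
      refine h1.trans ?_
      rw [add_zero, div_mul_eq_mul_div]
      apply div_le_div_of_nonneg_right _ hpow.le
      exact mul_le_mul_of_nonneg_right hsp hlone
  have hsum := sum_le_sum hpt
  rw [sum_add_distrib, ← mul_sum, ← sum_filter] at hsum
  -- first part
  have hA : 2 * √(Y : ℝ) / L ^ (3 / 2 - δ) *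
      ∑ p ∈ (Finset.Ioc Y (2 * Y)).filter Nat.Prime, Lone (dsc p) ≤
      2 * C1 * G (5 / 2 - δ) Y := by
    have h1 := hL Y hY1
    have h2 : 2 * √(Y : ℝ) / L ^ (3 / 2 - δ) ≤ 2 * √(Y : ℝ) / Real.log Y ^ (3 / 2 - δ) := by
      apply div_le_div_of_nonneg_left (by positivity) (Real.rpow_pos_of_pos hl0 _)
      exact Real.rpow_le_rpow hl0.le hl2 (by linarith)
    have h3 : 0 ≤ C1 * Y / Real.log Y := by positivity
    calc 2 * √(Y : ℝ) / L ^ (3 / 2 - δ) *
        ∑ p ∈ (Finset.Ioc Y (2 * Y)).filter Nat.Prime, Lone (dsc p) ≤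
        2 * √(Y : ℝ) / L ^ (3 / 2 - δ) * (C1 * Y / Real.log Y) :=
          mul_le_mul_of_nonneg_left h1 (by positivity)
      _ ≤ 2 * √(Y : ℝ) / Real.log Y ^ (3 / 2 - δ) * (C1 * Y / Real.log Y) :=
          mul_le_mul_of_nonneg_right h2 h3
      _ = 2 * C1 * G (5 / 2 - δ) Y := by
          unfold G
          rw [rpow_three_half (by linarith), show 5 / 2 - δ = (3 / 2 - δ) + 1 by ring,
            Real.rpow_add hl0, Real.rpow_one]
          field_simp
  -- second part
  have hB : ∑ a ∈ ((Finset.Ioc Y (2 * Y)).filter Nat.Prime).filter (fun a => a ∈ Bd),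
      C2 * (2 * √(Y : ℝ)) * (4 * Real.log Y) ≤ 16 * |M| * C2 * G (5 / 2 - δ) Y := by
    rw [sum_const, nsmul_eq_mul]
    have h1 : ((((Finset.Ioc Y (2 * Y)).filter Nat.Prime).filter (fun a => a ∈ Bd)).card : ℝ) ≤
        Bd.card := by
      exact_mod_cast card_le_card fun a ha => (mem_filter.1 ha).2
    have h2 := hX0 Y hYX
    have hexp : Real.exp (-(L ^ (δ / 8))) ≤ Real.exp (-(Real.log Y ^ (δ / 8))) := by
      apply Real.exp_le_exp.2
      have := Real.rpow_le_rpow hl0.le hl2 (by positivity : 0 ≤ δ / 8)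
      linarith
    have h3 : 0 ≤ C2 * (2 * √(Y : ℝ)) * (4 * Real.log Y) := by positivity
    have hsplit : Real.log Y ^ (7 / 2 : ℝ) = Real.log Y ^ (5 / 2 - δ) * Real.log Y *
        Real.log Y ^ δ := by
      rw [show (7 / 2 : ℝ) = (5 / 2 - δ) + 1 + δ by ring, Real.rpow_add hl0,
        Real.rpow_add hl0, Real.rpow_one]
    have hδ1 : 1 ≤ Real.log Y ^ δ := Real.one_le_rpow hl hδ.le
    have hp1 : 0 < Real.log Y ^ (5 / 2 - δ) := Real.rpow_pos_of_pos hl0 _
    have h4 : Real.exp (-(Real.log Y ^ (δ / 8))) * Real.log Y ≤ 1 / Real.log Y ^ (5 / 2 - δ) := by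
      rw [le_div_iff₀ hp1]
      have h5 : 0 ≤ Real.log Y ^ (5 / 2 - δ) * Real.log Y *
          Real.exp (-(Real.log Y ^ (δ / 8))) := by positivity
      rw [hsplit] at h2
      nlinarith
    calc ((((Finset.Ioc Y (2 * Y)).filter Nat.Prime).filter (fun a => a ∈ Bd)).card : ℝ) *
        (C2 * (2 * √(Y : ℝ)) * (4 * Real.log Y)) ≤
        (|M| * (2 * Y) * Real.exp (-(Real.log Y ^ (δ / 8)))) *
          (C2 * (2 * √(Y : ℝ)) * (4 * Real.log Y)) := by
          apply mul_le_mul_of_nonneg_right _ h3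
          refine h1.trans (hBc.trans ?_)
          exact mul_le_mul_of_nonneg_left hexp (by positivity)
      _ = 16 * |M| * C2 * (√(Y : ℝ) * Y) *
          (Real.exp (-(Real.log Y ^ (δ / 8))) * Real.log Y) := by ring
      _ ≤ 16 * |M| * C2 * (√(Y : ℝ) * Y) * (1 / Real.log Y ^ (5 / 2 - δ)) :=
          mul_le_mul_of_nonneg_left h4 (by positivity)
      _ = 16 * |M| * C2 * G (5 / 2 - δ) Y := by
          unfold G
          rw [rpow_three_half (by linarith)]
          ring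
  have : (2 * C1 + 16 * |M| * C2) * G (5 / 2 - δ) Y = 2 * C1 * G (5 / 2 - δ) Y +
      16 * |M| * C2 * G (5 / 2 - δ) Y := by ring
  rw [this]
  linarith

theorem G_half (a : ℝ) (ha : 0 ≤ a) (ha3 : a ≤ 3) (N : ℕ) (hN : Real.exp 40 ≤ N) :
    G a ((N / 2 : ℕ) : ℝ) ≤ 9 / 20 * G a N ∧ √(N : ℝ) * Real.log (4 * N) ≤ G a N := by
  have he : (40 : ℝ) + 1 ≤ Real.exp 40 := Real.add_one_le_exp 40
  have hN0 : (41 : ℝ) ≤ N := by linarith
  have hN41 : 41 ≤ N := by exact_mod_cast hN0
  have hlN : 40 ≤ Real.log N := (Real.le_log_iff_exp_le (by linarith)).2 hN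
  obtain ⟨Y, hY⟩ : ∃ Y, Y = N / 2 := ⟨_, rfl⟩
  rw [← hY]
  have hY1 : N ≤ 3 * Y := by omega
  have hY2 : 2 * Y ≤ N := by omega
  have hY20 : 20 ≤ Y := by omega
  have hYr : (20 : ℝ) ≤ Y := by exact_mod_cast hY20
  have hY1r : (N : ℝ) ≤ 3 * Y := by exact_mod_cast hY1
  have hY2r : 2 * (Y : ℝ) ≤ N := by exact_mod_cast hY2
  have hl3 : Real.log 3 ≤ 2 := by
    rw [Real.log_le_iff_le_exp (by norm_num)]
    have := Real.add_one_le_exp (2 : ℝ)
    linarith
  have hlY : Real.log N ≤ 2 + Real.log Y := by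
    have h1 : Real.log N ≤ Real.log (3 * Y) := Real.log_le_log (by linarith) hY1r
    rw [Real.log_mul (by norm_num) (by linarith)] at h1
    linarith
  have hlY38 : 38 ≤ Real.log Y := by linarith
  have hrat : Real.log N ≤ (20 / 19) * Real.log Y := by linarith
  have hlY0 : 0 < Real.log Y := by linarith
  have hlN0 : 0 < Real.log N := by linarith
  have hpow : Real.log N ^ a ≤ 6 / 5 * Real.log Y ^ a := by
    calc Real.log N ^ a ≤ ((20 / 19) * Real.log Y) ^ a := Real.rpow_le_rpow hlN0.le hrat ha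
      _ = (20 / 19 : ℝ) ^ a * Real.log Y ^ a := Real.mul_rpow (by norm_num) hlY0.le
      _ ≤ (20 / 19 : ℝ) ^ (3 : ℝ) * Real.log Y ^ a := by
          apply mul_le_mul_of_nonneg_right _ (by positivity)
          exact Real.rpow_le_rpow_of_exponent_le (by norm_num) ha3
      _ ≤ 6 / 5 * Real.log Y ^ a := by
          apply mul_le_mul_of_nonneg_right _ (by positivity)
          have : ((20 / 19 : ℝ)) ^ (3 : ℝ) = (20 / 19 : ℝ) ^ 3 := by
            rw [← Real.rpow_natCast]
            norm_num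
          rw [this]
          norm_num
  have hpN : 0 < Real.log N ^ a := Real.rpow_pos_of_pos hlN0 _
  have hpY : 0 < Real.log Y ^ a := Real.rpow_pos_of_pos hlY0 _
  constructor
  · unfold G
    rw [rpow_three_half (by linarith), rpow_three_half (by linarith)]
    have hs : √(Y : ℝ) ≤ 5 / 7 * √(N : ℝ) := by
      apply Real.sqrt_le_iff.2
      constructor
      · positivity
      · rw [mul_pow, Real.sq_sqrt (by linarith)]
        linarith
    have hsy : √(Y : ℝ) * Y ≤ 5 / 14 * (√(N : ℝ) * N) := by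
      calc √(Y : ℝ) * Y ≤ (5 / 7 * √(N : ℝ)) * (N / 2) :=
            mul_le_mul hs (by linarith) (by linarith) (by positivity)
        _ = 5 / 14 * (√(N : ℝ) * N) := by ring
    rw [div_le_iff₀ hpY]
    have h2 : 9 / 20 * (√(N : ℝ) * N / Real.log N ^ a) * Real.log Y ^ a =
        (√(N : ℝ) * N) * (9 / 20 * (Real.log Y ^ a / Real.log N ^ a)) := by ring
    rw [h2]
    have h3 : (5 / 6 : ℝ) ≤ Real.log Y ^ a / Real.log N ^ a := by
      rw [le_div_iff₀ hpN]
      linarith
    have h4 : 0 ≤ √(N : ℝ) * N := by positivity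
    nlinarith
  · unfold G
    rw [rpow_three_half (by linarith), le_div_iff₀ hpN]
    have h5 : Real.log (4 * N) ≤ 2 * Real.log N := by
      rw [Real.log_mul (by norm_num) (by linarith)]
      have : Real.log 4 ≤ Real.log N := Real.log_le_log (by norm_num) (by linarith)
      linarith
    have h6 : Real.log N ≤ 8 * (N : ℝ) ^ (1 / 8 : ℝ) := by
      have := Real.log_le_rpow_div (x := (N : ℝ)) (by linarith) (show (0 : ℝ) < 1 / 8 by norm_num)
      linarith
    have h7 : Real.log N ^ a ≤ Real.log N ^ 3 := by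
      rw [← Real.rpow_natCast]
      exact Real.rpow_le_rpow_of_exponent_le (by linarith) (by exact_mod_cast ha3)
    have h8 : Real.log N ^ 4 ≤ 4096 * √(N : ℝ) := by
      calc Real.log N ^ 4 ≤ (8 * (N : ℝ) ^ (1 / 8 : ℝ)) ^ 4 := pow_le_pow_left₀ hlN0.le h6 4
        _ = 4096 * ((N : ℝ) ^ (1 / 8 : ℝ)) ^ 4 := by ring
        _ = 4096 * √(N : ℝ) := by
            rw [← Real.rpow_natCast, ← Real.rpow_mul (by linarith), Real.sqrt_eq_rpow]
            norm_num
    have h9 : (8192 : ℝ) ≤ √(N : ℝ) := by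
      apply Real.le_sqrt_of_sq_le
      have h10 : (8192 : ℝ) ^ 2 ≤ Real.exp 40 := by
        have h11 : (2 : ℝ) ^ 40 ≤ Real.exp 1 ^ 40 :=
          pow_le_pow_left₀ (by norm_num) (by linarith [Real.add_one_le_exp (1 : ℝ)]) 40
        rw [← Real.exp_nat_mul] at h11
        have h12 : ((40 : ℕ) : ℝ) * 1 = 40 := by norm_num
        rw [h12] at h11
        refine le_trans ?_ h11
        norm_num
      linarith
    have hs0 : 0 < √(N : ℝ) := by positivity
    have hNs : √(N : ℝ) * √(N : ℝ) = N := Real.mul_self_sqrt (by linarith)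
    calc √(N : ℝ) * Real.log (4 * N) * Real.log N ^ a ≤
        √(N : ℝ) * (2 * Real.log N) * Real.log N ^ 3 := by
          apply mul_le_mul _ h7 hpN.le (by positivity)
          exact mul_le_mul_of_nonneg_left h5 hs0.le
      _ = √(N : ℝ) * (2 * Real.log N ^ 4) := by ring
      _ ≤ √(N : ℝ) * (2 * (4096 * √(N : ℝ))) := by
          apply mul_le_mul_of_nonneg_left _ hs0.le
          linarith
      _ = 8192 * (√(N : ℝ) * √(N : ℝ)) := by ring
      _ ≤ √(N : ℝ) * (√(N : ℝ) * √(N : ℝ)) :=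
          mul_le_mul_of_nonneg_right h9 (by positivity)
      _ = √(N : ℝ) * N := by rw [hNs]

theorem mean0 (δ : ℝ) (hδ : 0 < δ) (hδ2 : δ < 1 / 2) : ∃ C : ℝ, 0 ≤ C ∧ ∀ h : ℕ → ℕ, IsCl h →
    ∀ N : ℕ, 3 ≤ N → ∑ p ∈ (Finset.Icc 1 N).filter Nat.Prime, (h p : ℝ) ≤
      C * G (5 / 2 - δ) N := by
  obtain ⟨C, Y0, hC0, hb⟩ := block δ hδ hδ2
  obtain ⟨C2, hC2, hT⟩ := cl_le
  obtain ⟨a, ha⟩ : ∃ a, a = 5 / 2 - δ := ⟨_, rfl⟩
  have ha0 : 0 ≤ a := by linarith
  have ha3 : a ≤ 3 := by linarith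
  rw [← ha] at hb ⊢
  obtain ⟨N1, hN1⟩ : ∃ N1, N1 = max (2 * Y0 + 2) ⌈Real.exp 40⌉₊ := ⟨_, rfl⟩
  have hNY : 2 * Y0 + 2 ≤ N1 := by rw [hN1]; exact le_max_left _ _
  have hNe : Real.exp 40 ≤ N1 := by
    refine (Nat.le_ceil _).trans ?_
    rw [hN1]
    exact_mod_cast le_max_right _ _
  have he : (40 : ℝ) + 1 ≤ Real.exp 40 := Real.add_one_le_exp 40
  have hN1r : (41 : ℝ) ≤ N1 := by linarith
  have hl1 : 40 ≤ Real.log N1 := (Real.le_log_iff_exp_le (by linarith)).2 hNe
  obtain ⟨B, hB⟩ : ∃ B : ℝ, B = N1 * (C2 * √(N1 : ℝ) * Real.log (4 * N1)) := ⟨_, rfl⟩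
  have hl4 : 0 ≤ Real.log (4 * (N1 : ℝ)) := Real.log_nonneg (by linarith)
  have hB0 : 0 ≤ B := by rw [hB]; positivity
  obtain ⟨C₁, hC₁⟩ : ∃ C₁ : ℝ, C₁ = 3 * (C + C2) + B * Real.log N1 ^ 3 := ⟨_, rfl⟩
  have hC₁a : 3 * (C + C2) ≤ C₁ := by
    rw [hC₁]
    have : 0 ≤ B * Real.log N1 ^ 3 := by positivity
    linarith
  have hC₁b : B * Real.log N1 ^ 3 ≤ C₁ := by rw [hC₁]; linarith
  have hC₁0 : 0 ≤ C₁ := by linarith
  refine ⟨C₁, hC₁0, fun h hh N => ?_⟩
  have hcl : ∀ p : ℕ, p.Prime → (h p : ℝ) ≤ C2 * √(p : ℝ) * Real.log (4 * p) := by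
    intro p hp
    obtain ⟨K, i1, i2, hrk, hex, hcl⟩ := hh p hp
    rw [hcl]
    exact hT K p hp.one_lt hp.prime.squarefree hrk hex
  induction N using Nat.strong_induction_on with
  | _ N ih =>
    intro hN3
    have hN3r : (3 : ℝ) ≤ N := by exact_mod_cast hN3
    have hlN : 1 ≤ Real.log N := by
      rw [Real.le_log_iff_exp_le (by linarith)]
      linarith [Real.exp_one_lt_d9]
    have hG0 : 0 ≤ G a N := by
      unfold G
      have : 0 ≤ Real.log N := by linarith
      positivity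
    by_cases hN : N1 ≤ N
    · have hNe' : Real.exp 40 ≤ N := hNe.trans (by exact_mod_cast hN)
      have hN41 : 41 ≤ N := by
        have : (41 : ℝ) ≤ N := by linarith
        exact_mod_cast this
      obtain ⟨g1, g2⟩ := G_half a ha0 ha3 N hNe'
      obtain ⟨Y, hY⟩ : ∃ Y, Y = N / 2 := ⟨_, rfl⟩
      rw [← hY] at g1
      have hY3 : 3 ≤ Y := by omega
      have h1 := ih Y (by omega) hY3
      have h2 := hb h hh Y (by omega)
      have hsub : (Finset.Icc 1 N).filter Nat.Prime ⊆ ((Finset.Icc 1 Y).filter Nat.Prime ∪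
          (Finset.Ioc Y (2 * Y)).filter Nat.Prime) ∪ ({N} : Finset ℕ).filter Nat.Prime := by
        intro p hp
        rw [mem_filter, Finset.mem_Icc] at hp
        rw [mem_union, mem_union, mem_filter, mem_filter, mem_filter, Finset.mem_Icc,
          Finset.mem_Ioc, mem_singleton]
        by_cases c1 : p ≤ Y
        · exact Or.inl (Or.inl ⟨⟨hp.1.1, c1⟩, hp.2⟩)
        · by_cases c2 : p ≤ 2 * Y
          · exact Or.inl (Or.inr ⟨⟨by omega, c2⟩, hp.2⟩)
          · exact Or.inr ⟨by omega, hp.2⟩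
      have h3 : ∑ p ∈ (Finset.Icc 1 N).filter Nat.Prime, (h p : ℝ) ≤
          (∑ p ∈ (Finset.Icc 1 Y).filter Nat.Prime, (h p : ℝ) +
          ∑ p ∈ (Finset.Ioc Y (2 * Y)).filter Nat.Prime, (h p : ℝ)) +
          ∑ p ∈ ({N} : Finset ℕ).filter Nat.Prime, (h p : ℝ) := by
        refine (sum_le_sum_of_subset_of_nonneg hsub fun p _ _ => Nat.cast_nonneg _).trans ?_
        refine (sum_union_le' _ _ _ fun p => Nat.cast_nonneg _).trans ?_
        gcongr
        exact sum_union_le' _ _ _ fun p => Nat.cast_nonneg _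
      have h4 : ∑ p ∈ ({N} : Finset ℕ).filter Nat.Prime, (h p : ℝ) ≤ C2 * G a N := by
        by_cases hpr : N.Prime
        · rw [filter_singleton, if_pos hpr, sum_singleton]
          refine (hcl N hpr).trans ?_
          rw [mul_assoc]
          exact mul_le_mul_of_nonneg_left g2 (by linarith)
        · rw [filter_singleton, if_neg hpr, sum_empty]
          have : 0 ≤ C2 := by linarith
          positivity
      have h5 : C₁ * G a Y ≤ C₁ * (9 / 20 * G a N) := mul_le_mul_of_nonneg_left g1 hC₁0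
      have h6 : C * G a Y ≤ C * (9 / 20 * G a N) := mul_le_mul_of_nonneg_left g1 hC0
      have h7 : (9 / 20 * C₁ + 9 / 20 * C + C2) * G a N ≤ C₁ * G a N := by
        apply mul_le_mul_of_nonneg_right _ hG0
        linarith
      linarith
    · push Not at hN
      have hNr : (N : ℝ) ≤ N1 := by exact_mod_cast hN.le
      have h1 : ∑ p ∈ (Finset.Icc 1 N).filter Nat.Prime, (h p : ℝ) ≤ B := by
        have h2 : ∀ p ∈ (Finset.Icc 1 N).filter Nat.Prime, (h p : ℝ) ≤
            C2 * √(N1 : ℝ) * Real.log (4 * N1) := by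
          intro p hp
          rw [mem_filter, Finset.mem_Icc] at hp
          have hpr : (p : ℝ) ≤ N1 := by
            exact_mod_cast (by omega : p ≤ N1)
          have hp0 : (1 : ℝ) ≤ p := by exact_mod_cast hp.1.1
          refine (hcl p hp.2).trans ?_
          apply mul_le_mul
          · exact mul_le_mul_of_nonneg_left (Real.sqrt_le_sqrt hpr) (by linarith)
          · exact Real.log_le_log (by linarith) (by linarith)
          · exact Real.log_nonneg (by linarith)
          · positivity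
        refine (sum_le_card_nsmul _ _ _ h2).trans ?_
        rw [nsmul_eq_mul, hB]
        apply mul_le_mul_of_nonneg_right _ (by positivity)
        have h3 : ((Finset.Icc 1 N).filter Nat.Prime).card ≤ N := by
          refine (card_filter_le _ _).trans ?_
          rw [Nat.card_Icc]
          omega
        calc ((((Finset.Icc 1 N).filter Nat.Prime).card : ℕ) : ℝ) ≤ N := by exact_mod_cast h3
          _ ≤ N1 := hNr
      have h8 : 1 / Real.log N1 ^ 3 ≤ G a N := by
        unfold G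
        have h9 : 1 ≤ (N : ℝ) ^ (3 / 2 : ℝ) := Real.one_le_rpow (by linarith) (by norm_num)
        have h10 : Real.log N ^ a ≤ Real.log N1 ^ 3 := by
          have h11 : Real.log N ≤ Real.log N1 := Real.log_le_log (by linarith) hNr
          calc Real.log N ^ a ≤ Real.log N1 ^ a := Real.rpow_le_rpow (by linarith) h11 ha0
            _ ≤ Real.log N1 ^ (3 : ℝ) :=
                Real.rpow_le_rpow_of_exponent_le (by linarith) ha3
            _ = Real.log N1 ^ 3 := by
                rw [← Real.rpow_natCast]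
                norm_num
        have h12 : 0 < Real.log N ^ a := Real.rpow_pos_of_pos (by linarith) _
        exact div_le_div₀ (by positivity) h9 h12 h10
      have hp3 : 0 < Real.log N1 ^ 3 := by positivity
      calc ∑ p ∈ (Finset.Icc 1 N).filter Nat.Prime, (h p : ℝ) ≤ B := h1
        _ = B * Real.log N1 ^ 3 * (1 / Real.log N1 ^ 3) := by field_simp
        _ ≤ C₁ * G a N := mul_le_mul hC₁b h8 (by positivity) hC₁0

/-- the mean value of the class number over the primes -/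
theorem mean (δ : ℝ) (hδ : 0 < δ) : ∃ C : ℝ, ∀ h : ℕ → ℕ, IsCl h → ∀ N : ℕ, 3 ≤ N →
    ∑ p ∈ (Finset.Icc 1 N).filter Nat.Prime, (h p : ℝ) ≤
      C * ((N : ℝ) ^ (3 / 2 : ℝ) / Real.log N ^ (5 / 2 - δ)) := by
  obtain ⟨C, hC, hm⟩ := mean0 (min δ (1 / 4)) (lt_min hδ (by norm_num))
    (lt_of_le_of_lt (min_le_right _ _) (by norm_num))
  refine ⟨C, fun h hh N hN => (hm h hh N hN).trans ?_⟩
  have hNr : (3 : ℝ) ≤ N := by exact_mod_cast hN
  have hl : 1 ≤ Real.log N := by
    rw [Real.le_log_iff_exp_le (by linarith)]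
    linarith [Real.exp_one_lt_d9]
  unfold G
  apply mul_le_mul_of_nonneg_left _ hC
  apply div_le_div_of_nonneg_left (by positivity) (Real.rpow_pos_of_pos (by linarith) _)
  exact Real.rpow_le_rpow_of_exponent_le hl (by linarith [min_le_left δ (1 / 4)])

end

end Pool.Agent.Q276.PL.Mean
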